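import Pool.Agent.Run7.h125.Sat.Limit

/-!
Corners in `(F_2^n)^2` as copies of a configuration of three points in the powers of `F_2^2`.
-/

namespace Run7.h125.Sat.Corner

open Finset Filter Topology

/-- the plane `(F_2^n)^2` -/
abbrev Q (n : ℕ) : Type := (Fin n → ZMod 2) × (Fin n → ZMod 2)

/-- `A ⊆ (F_2^n)^2` contains no nontrivial corner `(x,y), (x,y+z), (x+z,y)`, `z ≠ 0`. -/
def NoCorner {n : ℕ} (A : Finset (Q n)) : Prop :=
  ∀ x y z : Fin n → ZMod 2, z ≠ 0 → ¬ ((x, y) ∈ A ∧ (x, y + z) ∈ A ∧ (x + z, y) ∈ A)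

/-- The number of the triples `(x, y, z)`, `z = 0` included, with
`(x,y), (x,y+z), (x+z,y)` all in `A`. -/
def corners {n : ℕ} (A : Finset (Q n)) : ℕ :=
  (univ.filter fun q : (Fin n → ZMod 2) × (Fin n → ZMod 2) × (Fin n → ZMod 2) =>
    (q.1, q.2.1) ∈ A ∧ (q.1, q.2.1 + q.2.2) ∈ A ∧ (q.1 + q.2.2, q.2.1) ∈ A).card

/-- the largest size of a corner-free subset of `(F_2^n)^2` -/
noncomputable def rc (n : ℕ) : ℕ := sSup {t | ∃ A : Finset (Q n), NoCorner A ∧ A.card = t}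

/-- the configuration of the corners -/
def v : Fin 3 → ZMod 2 × ZMod 2 := ![(0, 0), (0, 1), (1, 0)]

/-- pairs of vectors as words of pairs -/
def E (n : ℕ) : Q n ≃ (Fin n → ZMod 2 × ZMod 2) where
  toFun q := fun i => (q.1 i, q.2 i)
  invFun f := (fun i => (f i).1, fun i => (f i).2)
  left_inv _ := rfl
  right_inv _ := rfl

lemma pt0 {n : ℕ} (x y z : Fin n → ZMod 2) : pt v (E n (x, y)) z 0 = E n (x, y) := by
  funext i
  simp [pt_apply, v, E]

lemma pt1 {n : ℕ} (x y z : Fin n → ZMod 2) : pt v (E n (x, y)) z 1 = E n (x, y + z) := by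
  funext i
  simp [pt_apply, v, E]

lemma pt2 {n : ℕ} (x y z : Fin n → ZMod 2) : pt v (E n (x, y)) z 2 = E n (x + z, y) := by
  funext i
  simp [pt_apply, v, E]

lemma all_pt {n : ℕ} (A : Finset (Q n)) (x y z : Fin n → ZMod 2) :
    (∀ j, pt v (E n (x, y)) z j ∈ A.map (E n).toEmbedding) ↔
      ((x, y) ∈ A ∧ (x, y + z) ∈ A ∧ (x + z, y) ∈ A) := by
  have hm : ∀ q, E n q ∈ A.map (E n).toEmbedding ↔ q ∈ A := by
    intro q
    rw [mem_map_equiv, Equiv.symm_apply_apply]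
  constructor
  · intro h
    have h0 := h 0
    have h1 := h 1
    have h2 := h 2
    rw [pt0, hm] at h0
    rw [pt1, hm] at h1
    rw [pt2, hm] at h2
    exact ⟨h0, h1, h2⟩
  · rintro ⟨h0, h1, h2⟩ j
    fin_cases j
    · exact (pt0 x y z).symm ▸ (hm _).2 h0
    · exact (pt1 x y z).symm ▸ (hm _).2 h1
    · exact (pt2 x y z).symm ▸ (hm _).2 h2

lemma free_iff {n : ℕ} (A : Finset (Q n)) :
    Free (p := 2) v (A.map (E n).toEmbedding) ↔ NoCorner A := by
  constructor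
  · intro h x y z hz hh
    exact hz (h (E n (x, y)) z ((all_pt A x y z).2 hh))
  · intro h w z hw
    obtain ⟨⟨x, y⟩, rfl⟩ := (E n).surjective w
    by_contra hz
    exact h x y z hz ((all_pt A x y z).1 hw)

lemma corners_eq {n : ℕ} (A : Finset (Q n)) :
    corners A = (cop (p := 2) v (A.map (E n).toEmbedding)).card := by
  classical
  rw [corners]
  apply card_bij (fun q _ => (E n (q.1, q.2.1), q.2.2))
  · rintro ⟨x, y, z⟩ hq
    rw [mem_filter] at hq
    rw [mem_cop]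
    exact (all_pt A x y z).2 hq.2
  · rintro ⟨x, y, z⟩ _ ⟨x', y', z'⟩ _ h
    simp only [Prod.mk.injEq] at h
    obtain ⟨h1, h2⟩ := h
    have h3 := (E n).injective h1
    simp only [Prod.mk.injEq] at h3
    rw [h2, h3.1, h3.2]
  · rintro ⟨w, z⟩ hq
    rw [mem_cop] at hq
    obtain ⟨⟨x, y⟩, rfl⟩ := (E n).surjective w
    exact ⟨(x, y, z), mem_filter.2 ⟨mem_univ _, (all_pt A x y z).1 hq⟩, rfl⟩

lemma rc_eq (n : ℕ) : rc n = r 2 v n := by
  rw [rc, r]
  congr 1
  ext t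
  constructor
  · rintro ⟨A, hA, rfl⟩
    exact ⟨A.map (E n).toEmbedding, (free_iff A).2 hA, card_map _⟩
  · rintro ⟨A, hA, rfl⟩
    refine ⟨A.map (E n).symm.toEmbedding, ?_, card_map _⟩
    rw [← free_iff]
    have : (A.map (E n).symm.toEmbedding).map (E n).toEmbedding = A := by
      ext w; simp
    rwa [this]

lemma exists_rc (n : ℕ) : ∃ A : Finset (Q n), NoCorner A ∧ A.card = rc n := by
  obtain ⟨A, hA, hc⟩ := exists_r (p := 2) v n
  refine ⟨A.map (E n).symm.toEmbedding, ?_, by rw [card_map, hc, rc_eq]⟩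
  rw [← free_iff]
  have : (A.map (E n).symm.toEmbedding).map (E n).toEmbedding = A := by
    ext w; simp
  rwa [this]

lemma le_rc {n : ℕ} {A : Finset (Q n)} (h : NoCorner A) : A.card ≤ rc n := by
  rw [rc_eq]
  have := le_r v ((free_iff A).2 h)
  rwa [card_map] at this

lemma card_letters : (Fintype.card (ZMod 2 × ZMod 2) : ℝ) = 4 := by
  have : Fintype.card (ZMod 2 × ZMod 2) = 4 := by
    rw [Fintype.card_prod, ZMod.card]
  rw [this]; norm_num

/-- the base of the bound -/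
lemma base (c : ℝ) : (Fintype.card (ZMod 2 × ZMod 2) : ℝ) * ((2 : ℕ) : ℝ) ^ (-(2 * c))
    = (4 : ℝ) ^ (1 - c) := by
  rw [card_letters, Real.rpow_sub (by norm_num : (0 : ℝ) < 4), Real.rpow_one, Real.rpow_neg
    (by norm_num), Real.rpow_mul (by norm_num)]
  norm_num
  rfl

lemma base_pow (c : ℝ) (n : ℕ) : ((4 : ℝ) ^ (1 - c)) ^ n = (4 : ℝ) ^ ((1 - c) * n) := by
  rw [← Real.rpow_natCast, ← Real.rpow_mul (by norm_num)]

end Run7.h125.Sat.Corner
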