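import Pool.Agent.N68.Corner.Cover

/-!
From large corner-free sets in `(F_2^n)^2` to coverings by few corner-free sets.
-/

namespace Run7.h125.Sat.CoverBy

open Finset Filter Topology Pool.Agent.N68.Corner

/-- If for all large `n` there is a corner-free set of at least `b^n` points of `(F_2^n)^2`, then
for every `c > 4 / b` and all large `n` the group `(F_2^n)^2` is a union of at most `c^n`
corner-free sets of at least `b^n` points each. -/
theorem cover_of_large (b c : ℝ) (hb : 1 ≤ b) (hb4 : b ≤ 4) (hc : 4 / b < c)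
    (h : ∃ n0 : ℕ, ∀ n, n0 ≤ n → ∃ A : Finset ((Fin n → ZMod 2) × (Fin n → ZMod 2)),
      CornerFree A ∧ b ^ n ≤ A.card) :
    ∃ n0 : ℕ, ∀ n, n0 ≤ n →
      ∃ 𝒜 : Finset (Finset ((Fin n → ZMod 2) × (Fin n → ZMod 2))),
        (𝒜.card : ℝ) ≤ c ^ n ∧ (∀ A ∈ 𝒜, CornerFree A ∧ b ^ n ≤ A.card) ∧
          ∀ p, ∃ A ∈ 𝒜, p ∈ A := by
  classical
  have hb0 : 0 < b := by linarith
  obtain ⟨n1, h1⟩ := h
  set e : ℝ := 4 / b with he
  have he1 : 1 ≤ e := by rw [he, le_div_iff₀ hb0]; linarith
  have he0 : 0 < e := by linarith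
  have hc0 : 0 < c := by linarith
  have hr : |e / c| < 1 := by
    rw [abs_of_nonneg (by positivity), div_lt_one hc0]
    exact hc
  have hlim := tendsto_pow_const_mul_const_pow_of_abs_lt_one 1 hr
  set M : ℝ := 2 * Real.log 2 + 1 with hM
  have hlog : 0 ≤ Real.log 2 := Real.log_nonneg (by norm_num)
  have hM0 : 0 < M := by linarith
  have hev := hlim.eventually (gt_mem_nhds (show (0 : ℝ) < 1 / M by positivity))
  obtain ⟨n2, hn2⟩ := eventually_atTop.1 hev
  refine ⟨max (max n1 n2) 1, fun n hn => ?_⟩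
  obtain ⟨A, hA, hAc⟩ := h1 n ((le_max_left _ _).trans ((le_max_left _ _).trans hn))
  have hn2' := hn2 n ((le_max_right _ _).trans ((le_max_left _ _).trans hn))
  have hn' : 1 ≤ n := (le_max_right _ _).trans hn
  have hnR : (1 : ℝ) ≤ n := by exact_mod_cast hn'
  have hHc : (Fintype.card ((Fin n → ZMod 2) × (Fin n → ZMod 2)) : ℝ) = (4 : ℝ) ^ n := by
    rw [Fintype.card_prod, Fintype.card_fun, ZMod.card, Fintype.card_fin]
    push_cast
    rw [← mul_pow]
    norm_num
  have hA0 : (0 : ℝ) < A.card := lt_of_lt_of_le (by positivity) hAc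
  obtain ⟨k, t, ht, hk⟩ := cover_real A (by exact_mod_cast hA0)
  rw [hHc] at hk
  refine ⟨univ.image (fun i => A.image (fun p => p + t i)), ?_, ?_, ?_⟩
  · have h3 : ((univ.image (fun i => A.image (fun p => p + t i))).card : ℝ) ≤ k := by
      have := card_image_le (s := (univ : Finset (Fin k))) (f := fun i => A.image (fun p => p + t i))
      rw [card_univ, Fintype.card_fin] at this
      exact_mod_cast this
    refine h3.trans (hk.trans ?_)
    have h4 : (4 : ℝ) ^ n / A.card ≤ e ^ n := by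
      rw [he, div_pow]
      exact div_le_div_of_nonneg_left (by positivity) (by positivity) hAc
    have h5 : (1 : ℝ) ≤ e ^ n := one_le_pow₀ he1
    have h8 : Real.log ((4 : ℝ) ^ n) = 2 * n * Real.log 2 := by
      rw [show (4 : ℝ) = 2 ^ 2 by norm_num, ← pow_mul, Real.log_pow]
      push_cast
      ring
    rw [h8]
    have h6 : 2 * n * Real.log 2 * ((4 : ℝ) ^ n / A.card) + 1 ≤ M * n * e ^ n := by
      have e1 : 2 * n * Real.log 2 * ((4 : ℝ) ^ n / A.card) ≤ 2 * n * Real.log 2 * e ^ n :=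
        mul_le_mul_of_nonneg_left h4 (by positivity)
      have e2 : (1 : ℝ) ≤ n * e ^ n := by nlinarith
      calc _ ≤ 2 * n * Real.log 2 * e ^ n + n * e ^ n := by linarith
        _ = M * n * e ^ n := by rw [hM]; ring
    have h7 : M * n * e ^ n ≤ c ^ n := by
      have hcn : 0 < c ^ n := by positivity
      rw [pow_one, div_pow, lt_div_iff₀ hM0, ← mul_div_assoc, div_mul_eq_mul_div,
        div_lt_one hcn] at hn2'
      calc M * n * e ^ n = n * e ^ n * M := by ring
        _ ≤ c ^ n := hn2'.le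
    linarith
  · intro B hB
    obtain ⟨i, _, rfl⟩ := mem_image.1 hB
    refine ⟨hA.translate (t i), ?_⟩
    rw [card_image_of_injective _ (add_left_injective (t i))]
    exact hAc
  · intro p
    obtain ⟨i, hi⟩ := ht p
    exact ⟨_, mem_image.2 ⟨i, mem_univ _, rfl⟩, mem_image.2 ⟨p - t i, hi, sub_add_cancel _ _⟩⟩

end Run7.h125.Sat.CoverBy
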