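import Mathlib

/-!
Copies `x + z v_j` of a finite configuration in the powers of a module over `ZMod p`, restriction
to hyperplanes, and the recursion between the number of copies and the largest size of a set
without nontrivial copies.
-/

namespace Run7.h125.Sat

open Finset

variable {p : ℕ} [hp : Fact p.Prime] {Γ : Type*} [AddCommGroup Γ] [Module (ZMod p) Γ]
  {ι : Type*}

/-- the `j`-th point of the copy with base point `x` and direction `z` -/
def pt {I : Type*} (v : ι → Γ) (x : I → Γ) (z : I → ZMod p) (j : ι) : I → Γ :=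
  fun i => x i + z i • v j

/-- no nontrivial copy -/
def Free {I : Type*} (v : ι → Γ) (A : Finset (I → Γ)) : Prop :=
  ∀ (x : I → Γ) (z : I → ZMod p), (∀ j, pt v x z j ∈ A) → z = 0

section ext

/-- extension of a vector to the hyperplane `∑ a i • x i = c` -/
noncomputable def ext {n : ℕ} {Γ : Type*} [AddCommGroup Γ] [Module (ZMod p) Γ]
    (a : Fin (n + 1) → ZMod p) (i0 : Fin (n + 1)) (c : Γ)
    (w : Fin n → Γ) : Fin (n + 1) → Γ :=
  i0.insertNth (α := fun _ => Γ) ((a i0)⁻¹ • (c - ∑ j, a (i0.succAbove j) • w j)) w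

lemma ext_same {n : ℕ} (a : Fin (n + 1) → ZMod p) (i0 : Fin (n + 1)) (c : Γ) (w : Fin n → Γ) :
    ext a i0 c w i0 = (a i0)⁻¹ • (c - ∑ j, a (i0.succAbove j) • w j) := by
  simp [ext]

lemma ext_above {n : ℕ} (a : Fin (n + 1) → ZMod p) (i0 : Fin (n + 1)) (c : Γ) (w : Fin n → Γ)
    (j : Fin n) : ext a i0 c w (i0.succAbove j) = w j := by
  simp [ext]

lemma dot_ext {n : ℕ} (a : Fin (n + 1) → ZMod p) (i0 : Fin (n + 1)) (h : a i0 ≠ 0) (c : Γ)
    (w : Fin n → Γ) : ∑ i, a i • ext a i0 c w i = c := by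
  rw [Fin.sum_univ_succAbove _ i0, ext_same, smul_smul, mul_inv_cancel₀ h, one_smul]
  simp_rw [ext_above]
  abel

lemma ext_remove {n : ℕ} (a : Fin (n + 1) → ZMod p) (i0 : Fin (n + 1)) (h : a i0 ≠ 0) (c : Γ)
    (x : Fin (n + 1) → Γ) (hx : ∑ i, a i • x i = c) :
    ext a i0 c (fun j => x (i0.succAbove j)) = x := by
  funext i
  refine Fin.succAboveCases i0 ?_ (fun j => ?_) i
  · rw [ext_same, ← hx, Fin.sum_univ_succAbove _ i0, add_sub_cancel_right, smul_smul,
      inv_mul_cancel₀ h, one_smul]
  · rw [ext_above]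

lemma ext_inj {n : ℕ} (a : Fin (n + 1) → ZMod p) (i0 : Fin (n + 1)) (c : Γ)
    {w w' : Fin n → Γ} (h : ext a i0 c w = ext a i0 c w') : w = w' := by
  funext j
  have := congrFun h (i0.succAbove j)
  rwa [ext_above, ext_above] at this

lemma pt_apply {I : Type*} (v : ι → Γ) (x : I → Γ) (z : I → ZMod p) (j : ι) (i : I) :
    pt v x z j i = x i + z i • v j := rfl

lemma pt_ext {n : ℕ} (v : ι → Γ) (a : Fin (n + 1) → ZMod p) (i0 : Fin (n + 1)) (c : Γ)
    (w : Fin n → Γ) (z : Fin n → ZMod p) (j : ι) :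
    pt v (ext a i0 c w) (ext a i0 (0 : ZMod p) z) j = ext a i0 c (pt v w z j) := by
  funext i
  refine Fin.succAboveCases i0 ?_ (fun k => ?_) i
  · rw [pt_apply, ext_same, ext_same, ext_same]
    simp only [smul_eq_mul, zero_sub, pt_apply, smul_add, sum_add_distrib, smul_sub]
    have e : ∑ x, a (i0.succAbove x) • z x • v j = (∑ x, a (i0.succAbove x) * z x) • v j := by
      rw [sum_smul]
      exact sum_congr rfl fun x _ => smul_smul _ _ _
    rw [e, mul_neg, neg_smul, mul_smul]
    abel
  · rw [pt_apply, ext_above, ext_above, ext_above, pt_apply]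

end ext

variable [Fintype Γ] [DecidableEq Γ] [Fintype ι]

open Classical in
/-- all copies in `A` -/
noncomputable def cop {I : Type*} [Fintype I] [DecidableEq I] (v : ι → Γ)
    (A : Finset (I → Γ)) : Finset ((I → Γ) × (I → ZMod p)) :=
  univ.filter fun q => ∀ j, pt v q.1 q.2 j ∈ A

open Classical in
/-- the nontrivial copies in `A` -/
noncomputable def ntc {I : Type*} [Fintype I] [DecidableEq I] (v : ι → Γ)
    (A : Finset (I → Γ)) : Finset ((I → Γ) × (I → ZMod p)) :=
  (cop v A).filter fun q => q.2 ≠ 0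

lemma mem_cop {I : Type*} [Fintype I] [DecidableEq I] {v : ι → Γ} {A : Finset (I → Γ)}
    {q : (I → Γ) × (I → ZMod p)} : q ∈ cop v A ↔ ∀ j, pt v q.1 q.2 j ∈ A := by
  simp [cop]

lemma mem_ntc {I : Type*} [Fintype I] [DecidableEq I] {v : ι → Γ} {A : Finset (I → Γ)}
    {q : (I → Γ) × (I → ZMod p)} : q ∈ ntc v A ↔ (∀ j, pt v q.1 q.2 j ∈ A) ∧ q.2 ≠ 0 := by
  simp [ntc, cop]

lemma card_cop {I : Type*} [Fintype I] [DecidableEq I] [Nonempty ι] (v : ι → Γ)
    (A : Finset (I → Γ)) : (cop (p := p) v A).card = A.card + (ntc (p := p) v A).card := by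
  classical
  have h := card_filter_add_card_filter_not (s := cop (p := p) v A) (fun q => q.2 = 0)
  have e : ((cop (p := p) v A).filter (fun q => q.2 = 0)).card = A.card := by
    symm
    apply card_bij (fun x _ => (x, (0 : I → ZMod p)))
    · intro x hx
      rw [mem_filter, mem_cop]
      refine ⟨fun j => ?_, rfl⟩
      have : pt v x (0 : I → ZMod p) j = x := by
        funext i; simp [pt]
      simpa [this] using hx
    · intro x _ y _ hxy
      exact (Prod.mk.inj hxy).1
    · rintro ⟨x, z⟩ hq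
      rw [mem_filter, mem_cop] at hq
      obtain ⟨h1, h2⟩ := hq
      simp only at h1 h2
      subst h2
      obtain ⟨j⟩ := ‹Nonempty ι›
      refine ⟨x, ?_, rfl⟩
      have := h1 j
      have e : pt v x (0 : I → ZMod p) j = x := by
        funext i; simp [pt]
      rwa [e] at this
  rw [e] at h
  rw [← h, ntc]

/-- the number of linear forms which vanish at a nonzero vector -/
lemma card_vanish {m : ℕ} (z : Fin m → ZMod p) (hz : z ≠ 0) :
    p * (univ.filter fun a : Fin m → ZMod p => a ≠ 0 ∧ ∑ i, a i * z i = 0).card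
      ≤ (univ.filter fun a : Fin m → ZMod p => a ≠ 0).card := by
  classical
  obtain ⟨i1, hi1⟩ : ∃ i, z i ≠ 0 := by
    by_contra hcon
    push Not at hcon
    exact hz (funext hcon)
  have h : (univ ×ˢ (univ.filter fun a : Fin m → ZMod p => a ≠ 0 ∧ ∑ i, a i * z i = 0) :
      Finset (ZMod p × (Fin m → ZMod p))).card
      ≤ (univ.filter fun a : Fin m → ZMod p => a ≠ 0).card := by
    apply card_le_card_of_injOn (fun q => q.2 + Pi.single i1 q.1)
    · rintro ⟨t, a⟩ hq
      simp only [coe_product, Set.mem_prod, mem_coe, mem_filter, mem_univ, true_and] at hq ⊢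
      intro h0
      have e : ∑ i, (a + Pi.single i1 t : Fin m → ZMod p) i * z i = t * z i1 := by
        simp only [Pi.add_apply, add_mul, sum_add_distrib, hq.2, zero_add]
        rw [sum_eq_single i1]
        · simp
        · intro b _ hb; simp [hb]
        · intro h; exact absurd (mem_univ _) h
      rw [h0] at e
      simp only [Pi.zero_apply, zero_mul, sum_const_zero] at e
      have ht : t = 0 := by
        rcases mul_eq_zero.1 e.symm with h | h
        · exact h
        · exact absurd h hi1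
      subst ht
      simp only [Pi.single_zero, add_zero] at h0
      exact hq.1 h0
    · rintro ⟨t, a⟩ hq ⟨t', a'⟩ hq' heq
      simp only [coe_product, Set.mem_prod, mem_coe, mem_filter, mem_univ, true_and] at hq hq' heq
      have key : ∀ (t : ZMod p) (a : Fin m → ZMod p), ∑ i, a i * z i = 0 →
          ∑ i, (a + Pi.single i1 t : Fin m → ZMod p) i * z i = t * z i1 := by
        intro t a ha
        simp only [Pi.add_apply, add_mul, sum_add_distrib, ha, zero_add]
        rw [sum_eq_single i1]
        · simp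
        · intro b _ hb; simp [hb]
        · intro h; exact absurd (mem_univ _) h
      have e1 := key t a hq.2
      have e2 := key t' a' hq'.2
      rw [heq, e2] at e1
      have ht : t' = t := mul_right_cancel₀ hi1 e1
      subst ht
      have : a = a' := by
        have h3 := congrArg (fun f => f - Pi.single i1 t') heq
        simpa using h3
      rw [this]
  rwa [card_product, card_univ, ZMod.card] at h

/-- restriction to a hyperplane -/
theorem hyper [Nonempty ι] {n : ℕ} (v : ι → Γ) (A : Finset (Fin (n + 1) → Γ)) (M : ℕ) :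
    ∃ B : Finset (Fin n → Γ),
      ((p * M * A.card : ℕ) : ℤ) - (ntc (p := p) v A).card
        ≤ (Fintype.card Γ * p : ℕ) * (((M * B.card : ℕ) : ℤ) - (ntc (p := p) v B).card) := by
  classical
  set K := (univ.filter fun a : Fin (n + 1) → ZMod p => a ≠ 0) with hK
  have hex : ∀ a : Fin (n + 1) → ZMod p, ∃ i, a ≠ 0 → a i ≠ 0 := by
    intro a
    by_cases ha : a = 0
    · exact ⟨0, fun h => absurd ha h⟩
    · by_contra hcon
      push Not at hcon
      exact ha (funext fun i => (hcon i).2)
  choose i0 hi0 using hex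
  set B : (Fin (n + 1) → ZMod p) → Γ → Finset (Fin n → Γ) :=
    fun a c => univ.filter fun w => ext a (i0 a) c w ∈ A with hB
  -- sizes
  have s1 : ∀ a ∈ K, A.card ≤ ∑ c : Γ, (B a c).card := by
    intro a ha
    have ha' : a ≠ 0 := (mem_filter.1 ha).2
    have h1 : A.card = ∑ c : Γ, (A.filter fun x => ∑ i, a i • x i = c).card :=
      card_eq_sum_card_fiberwise (fun x _ => mem_coe.2 (mem_univ _))
    rw [h1]
    apply sum_le_sum
    intro c _
    apply card_le_card_of_injOn (fun x => fun j => x ((i0 a).succAbove j))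
    · intro x hx
      rw [mem_coe, mem_filter] at hx
      rw [mem_coe, hB, mem_filter]
      refine ⟨mem_univ _, ?_⟩
      rw [ext_remove a (i0 a) (hi0 a ha') c x hx.2]
      exact hx.1
    · intro x hx y hy hxy
      rw [mem_coe, mem_filter] at hx hy
      rw [← ext_remove a (i0 a) (hi0 a ha') c x hx.2, ← ext_remove a (i0 a) (hi0 a ha') c y hy.2]
      simp only at hxy
      rw [hxy]
  have s2 : ∀ a ∈ K, ∀ c : Γ, (ntc (p := p) v (B a c)).card ≤
      ((ntc (p := p) v A).filter fun q => ∑ i, a i • q.1 i = c ∧ ∑ i, a i * q.2 i = 0).card := by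
    intro a ha c
    have ha' : a ≠ 0 := (mem_filter.1 ha).2
    apply card_le_card_of_injOn
      (fun q => (ext a (i0 a) c q.1, ext a (i0 a) (0 : ZMod p) q.2))
    · rintro ⟨w, z⟩ hq
      rw [mem_coe, mem_ntc] at hq
      obtain ⟨h1, h2⟩ := hq
      simp only at h1 h2
      rw [mem_coe, mem_filter, mem_ntc]
      refine ⟨⟨fun j => ?_, ?_⟩, ?_, ?_⟩
      · have := h1 j
        rw [hB, mem_filter] at this
        simp only
        rw [pt_ext]
        exact this.2
      · intro h0
        apply h2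
        funext j
        have := congrFun h0 ((i0 a).succAbove j)
        simp only at this
        rwa [ext_above] at this
      · exact dot_ext a (i0 a) (hi0 a ha') c w
      · exact dot_ext a (i0 a) (hi0 a ha') (0 : ZMod p) z
    · rintro ⟨w, z⟩ _ ⟨w', z'⟩ _ h
      simp only [Prod.mk.injEq] at h
      rw [ext_inj a (i0 a) c h.1, ext_inj a (i0 a) (0 : ZMod p) h.2]
  have s3 : p * ∑ a ∈ K, ∑ c : Γ, (ntc (p := p) v (B a c)).card
      ≤ K.card * (ntc (p := p) v A).card := by
    calc p * ∑ a ∈ K, ∑ c : Γ, (ntc (p := p) v (B a c)).card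
        ≤ p * ∑ a ∈ K, ∑ c : Γ, ((ntc (p := p) v A).filter fun q =>
            ∑ i, a i • q.1 i = c ∧ ∑ i, a i * q.2 i = 0).card :=
          Nat.mul_le_mul_left _ (sum_le_sum fun a ha => sum_le_sum fun c _ => s2 a ha c)
      _ = p * ∑ a ∈ K, ((ntc (p := p) v A).filter fun q => ∑ i, a i * q.2 i = 0).card := by
          congr 1
          apply sum_congr rfl
          intro a _
          symm
          rw [card_eq_sum_card_fiberwise (f := fun q : (Fin (n + 1) → Γ) × (Fin (n + 1) → ZMod p) =>
            ∑ i, a i • q.1 i) (t := univ) (fun x _ => mem_coe.2 (mem_univ _))]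
          apply sum_congr rfl
          intro c _
          congr 1
          ext q
          simp only [mem_filter]
          tauto
      _ = ∑ q ∈ ntc (p := p) v A,
            p * (univ.filter fun a : Fin (n + 1) → ZMod p => a ≠ 0 ∧ ∑ i, a i * q.2 i = 0).card := by
          rw [← mul_sum]
          congr 1
          simp_rw [card_filter]
          rw [sum_comm]
          apply sum_congr rfl
          intro q _
          rw [hK, sum_filter]
          apply sum_congr rfl
          intro a _
          by_cases h1 : a = 0 <;> by_cases h2 : ∑ i, a i * q.2 i = 0 <;> simp [h1, h2]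
      _ ≤ ∑ _q ∈ ntc (p := p) v A, K.card := by
          apply sum_le_sum
          intro q hq
          exact card_vanish q.2 (mem_ntc.1 hq).2
      _ = K.card * (ntc (p := p) v A).card := by
          rw [sum_const, smul_eq_mul, mul_comm]
  have hKpos : 0 < K.card := by
    apply card_pos.2
    refine ⟨fun _ => 1, ?_⟩
    rw [hK, mem_filter]
    refine ⟨mem_univ _, fun h => ?_⟩
    have := congrFun h 0
    simp at this
  by_contra hcon
  push Not at hcon
  set X : ℤ := ((p * M * A.card : ℕ) : ℤ) - (ntc (p := p) v A).card with hX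
  have hG : 0 < Fintype.card Γ := Fintype.card_pos
  have t1 : ∑ a ∈ K, ∑ c : Γ, ((Fintype.card Γ * p : ℕ) : ℤ) *
      (((M * (B a c).card : ℕ) : ℤ) - (ntc (p := p) v (B a c)).card)
      < ∑ a ∈ K, ∑ _c : Γ, X := by
    apply sum_lt_sum_of_nonempty (card_pos.1 hKpos)
    intro a _
    apply sum_lt_sum_of_nonempty univ_nonempty
    intro c _
    exact hcon (B a c)
  simp_rw [← mul_sum, sum_sub_distrib] at t1
  simp only [sum_const, card_univ, nsmul_eq_mul] at t1
  have t2 : ((K.card * (M * A.card) : ℕ) : ℤ) ≤ ∑ a ∈ K, ∑ c : Γ, ((M * (B a c).card : ℕ) : ℤ) := by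
    have : K.card * (M * A.card) ≤ ∑ a ∈ K, ∑ c : Γ, M * (B a c).card := by
      calc K.card * (M * A.card) = ∑ _a ∈ K, M * A.card := by rw [sum_const, smul_eq_mul]
        _ ≤ _ := sum_le_sum fun a ha => by
            rw [← mul_sum]
            exact Nat.mul_le_mul_left _ (s1 a ha)
    exact_mod_cast this
  have t3 : (p : ℤ) * ∑ a ∈ K, ∑ c : Γ, ((ntc (p := p) v (B a c)).card : ℤ)
      ≤ (K.card * (ntc (p := p) v A).card : ℕ) := by exact_mod_cast s3
  have hp0 : (0 : ℤ) < p := by exact_mod_cast hp.out.pos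
  have hG' : (0 : ℤ) < Fintype.card Γ := by exact_mod_cast hG
  have t4 : (Fintype.card Γ : ℤ) * ((K.card : ℤ) * X) ≤ ((Fintype.card Γ * p : ℕ) : ℤ) *
      (∑ a ∈ K, ∑ c : Γ, ((M * (B a c).card : ℕ) : ℤ)
        - ∑ a ∈ K, ∑ c : Γ, ((ntc (p := p) v (B a c)).card : ℤ)) := by
    have e1 : ((Fintype.card Γ * p : ℕ) : ℤ) *
      (∑ a ∈ K, ∑ c : Γ, ((M * (B a c).card : ℕ) : ℤ)
        - ∑ a ∈ K, ∑ c : Γ, ((ntc (p := p) v (B a c)).card : ℤ))
        = (Fintype.card Γ : ℤ) * ((p : ℤ) * ∑ a ∈ K, ∑ c : Γ, ((M * (B a c).card : ℕ) : ℤ)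
          - (p : ℤ) * ∑ a ∈ K, ∑ c : Γ, ((ntc (p := p) v (B a c)).card : ℤ)) := by
      push_cast; ring
    rw [e1]
    apply mul_le_mul_of_nonneg_left _ hG'.le
    have e2 := mul_le_mul_of_nonneg_left t2 hp0.le
    rw [hX]
    push_cast at e2 t3 ⊢
    linarith
  have t5 : (K.card : ℤ) * ((Fintype.card Γ : ℤ) * X) = (Fintype.card Γ : ℤ) * ((K.card : ℤ) * X) := by
    ring
  have t6 : ∀ a, ∑ c : Γ, ((M * (B a c).card : ℕ) : ℤ) - ∑ c : Γ, ((ntc (p := p) v (B a c)).card : ℤ)
    = ∑ c : Γ, (((M * (B a c).card : ℕ) : ℤ) - ((ntc (p := p) v (B a c)).card : ℤ)) :=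
    fun a => by rw [sum_sub_distrib]
  linarith

end Run7.h125.Sat
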