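import Pool.Agent.Run7.h125.Sat.Strict

/-!
The growth rate exists.
-/

namespace Run7.h125.Sat

open Finset Filter Topology

variable {p : ℕ} [hp : Fact p.Prime] {Γ : Type*} [AddCommGroup Γ] [Module (ZMod p) Γ]
  [Fintype Γ] [DecidableEq Γ] {ι : Type*} [Fintype ι]

lemma r_mul_le [Nonempty ι] (v : ι → Γ) (m n : ℕ) : r p v m * r p v n ≤ r p v (m + n) := by
  obtain ⟨A, hA, hA'⟩ := exists_r (p := p) v m
  obtain ⟨B, hB, hB'⟩ := exists_r (p := p) v n
  set C : Finset (Fin (m + n) → Γ) := (A ×ˢ B).map (Fin.appendEquiv m n).toEmbedding with hC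
  have hmem : ∀ w, w ∈ C → (fun i => w (Fin.castAdd n i)) ∈ A ∧
      (fun i => w (Fin.natAdd m i)) ∈ B := by
    intro w hw
    rw [hC, Finset.mem_map] at hw
    obtain ⟨q, hq, rfl⟩ := hw
    rw [mem_product] at hq
    constructor
    · have : (fun i => (Fin.appendEquiv m n).toEmbedding q (Fin.castAdd n i)) = q.1 := by
        funext i; simp [Fin.appendEquiv]
      rw [this]; exact hq.1
    · have : (fun i => (Fin.appendEquiv m n).toEmbedding q (Fin.natAdd m i)) = q.2 := by
        funext i; simp [Fin.appendEquiv]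
      rw [this]; exact hq.2
  have hfree : Free (p := p) v C := by
    intro x z h
    have h1 := hA (fun i => x (Fin.castAdd n i)) (fun i => z (Fin.castAdd n i))
      fun j => (hmem _ (h j)).1
    have h2 := hB (fun i => x (Fin.natAdd m i)) (fun i => z (Fin.natAdd m i))
      fun j => (hmem _ (h j)).2
    funext i
    refine Fin.addCases (fun a => ?_) (fun a => ?_) i
    · exact congrFun h1 a
    · exact congrFun h2 a
  have := le_r v hfree
  rwa [hC, card_map, card_product, hA', hB'] at this

lemma one_le_r [Nonempty ι] (v : ι → Γ) {j1 j2 : ι} (hj : v j1 ≠ v j2) (n : ℕ) :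
    1 ≤ r p v n := by
  have h : Free (p := p) v ({0} : Finset (Fin n → Γ)) := by
    intro x z h
    have h1 := mem_singleton.1 (h j1)
    have h2 := mem_singleton.1 (h j2)
    funext i
    have e1 := congrFun h1 i
    have e2 := congrFun h2 i
    rw [pt_apply] at e1 e2
    by_contra hz
    apply hj
    have h3 : z i • v j1 = z i • v j2 := add_left_cancel (e1.trans e2.symm)
    have h4 := congrArg (fun t => (z i)⁻¹ • t) h3
    simp only [smul_smul] at h4
    rwa [inv_mul_cancel₀ hz, one_smul, one_smul] at h4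
  simpa using le_r v h

lemma r_le_pow (v : ι → Γ) [Nonempty ι] (n : ℕ) : r p v n ≤ Fintype.card Γ ^ n := by
  obtain ⟨A, _, hA⟩ := exists_r (p := p) v n
  rw [← hA]
  have := card_le_univ A
  rwa [Fintype.card_fun, Fintype.card_fin] at this

theorem limit [Nonempty ι] (v : ι → Γ) {j1 j2 : ι} (hj : v j1 ≠ v j2) :
    ∃ L : ℝ, 0 < L ∧ Tendsto (fun n : ℕ => (r p v n : ℝ) ^ (1 / (n : ℝ))) atTop (𝓝 L) ∧
      ∀ n : ℕ, (r p v n : ℝ) ≤ L ^ n := by
  have hpos : ∀ n, (0 : ℝ) < r p v n := fun n => by exact_mod_cast one_le_r (p := p) v hj n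
  have hsub : Subadditive (fun n : ℕ => - Real.log (r p v n)) := by
    intro m n
    have h1 : (r p v m : ℝ) * r p v n ≤ r p v (m + n) := by exact_mod_cast r_mul_le (p := p) v m n
    have h2 := Real.log_le_log (mul_pos (hpos m) (hpos n)) h1
    rw [Real.log_mul (hpos m).ne' (hpos n).ne'] at h2
    linarith
  have hG1 : (1 : ℝ) ≤ Fintype.card Γ := by exact_mod_cast (Fintype.card_pos (α := Γ))
  have hbdd : BddBelow (Set.range fun n : ℕ => (- Real.log (r p v n)) / n) := by
    refine ⟨- Real.log (Fintype.card Γ), ?_⟩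
    rintro _ ⟨n, rfl⟩
    rcases Nat.eq_zero_or_pos n with rfl | hn
    · simp only [Nat.cast_zero, div_zero]
      have := Real.log_nonneg hG1
      linarith
    · have hn' : (0 : ℝ) < n := by exact_mod_cast hn
      have h1 : (r p v n : ℝ) ≤ (Fintype.card Γ : ℝ) ^ n := by exact_mod_cast r_le_pow v n
      have h2 := Real.log_le_log (hpos n) h1
      rw [Real.log_pow] at h2
      simp only
      rw [le_div_iff₀ hn']
      linarith
  have hlim := hsub.tendsto_lim hbdd
  set ℓ := - hsub.lim with hℓ
  refine ⟨Real.exp ℓ, Real.exp_pos _, ?_, ?_⟩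
  · have h1 := (Real.continuous_exp.tendsto ℓ).comp (hlim.neg)
    refine h1.congr fun n => ?_
    simp only [Function.comp]
    rw [Real.rpow_def_of_pos (hpos n)]
    congr 1
    ring
  · intro n
    rcases Nat.eq_zero_or_pos n with rfl | hn
    · have := r_le_pow (p := p) v 0
      simp only [pow_zero] at this ⊢
      exact_mod_cast this
    have h1 := hsub.lim_le_div hbdd (n := n) (by omega)
    have hn' : (0 : ℝ) < n := by exact_mod_cast hn
    rw [le_div_iff₀ hn'] at h1
    have h2 : Real.log (r p v n) ≤ n * ℓ := by rw [hℓ]; linarith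
    rw [← Real.exp_nat_mul, ← Real.exp_log (hpos n)]
    exact Real.exp_le_exp.2 h2

end Run7.h125.Sat
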