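import Pool.Agent.Run7.h125.Sat.Core

/-!
The recursion between copies and the largest free sets, powers, and sharp supersaturation.
-/

namespace Run7.h125.Sat

open Finset

variable {p : ℕ} [hp : Fact p.Prime] {Γ : Type*} [AddCommGroup Γ] [Module (ZMod p) Γ]
  [Fintype Γ] [DecidableEq Γ] {ι : Type*} [Fintype ι]

/-- the largest size of a subset of `Γ^n` without nontrivial copies -/
noncomputable def r (p : ℕ) [Fact p.Prime] {Γ : Type*} [AddCommGroup Γ] [Module (ZMod p) Γ] {ι : Type*}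
    (v : ι → Γ) (n : ℕ) : ℕ :=
  sSup {t | ∃ A : Finset (Fin n → Γ), Free (p := p) v A ∧ A.card = t}

lemma bdd (v : ι → Γ) (n : ℕ) :
    BddAbove {t | ∃ A : Finset (Fin n → Γ), Free (p := p) v A ∧ A.card = t} := by
  refine ⟨Fintype.card Γ ^ n, ?_⟩
  rintro t ⟨A, _, rfl⟩
  have := card_le_univ A
  rwa [Fintype.card_fun, Fintype.card_fin] at this

lemma le_r (v : ι → Γ) {n : ℕ} {A : Finset (Fin n → Γ)} (h : Free (p := p) v A) :
    A.card ≤ r p v n := le_csSup (bdd v n) ⟨A, h, rfl⟩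

lemma exists_r [Nonempty ι] (v : ι → Γ) (n : ℕ) :
    ∃ A : Finset (Fin n → Γ), Free (p := p) v A ∧ A.card = r p v n :=
  Nat.sSup_mem (s := {t | ∃ A : Finset (Fin n → Γ), Free (p := p) v A ∧ A.card = t})
    ⟨0, ∅, fun x z h => by
      obtain ⟨j⟩ := ‹Nonempty ι›
      exact absurd (h j) (notMem_empty _), rfl⟩ (bdd v n)

/-- removing one point from every nontrivial copy -/
lemma deletion [Nonempty ι] (v : ι → Γ) {n : ℕ} (A : Finset (Fin n → Γ)) :
    A.card ≤ (ntc (p := p) v A).card + r p v n := by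
  classical
  obtain ⟨j⟩ := ‹Nonempty ι›
  set D := (ntc (p := p) v A).image fun q => pt v q.1 q.2 j with hD
  have h1 : Free (p := p) v (A \ D) := by
    intro x z h
    by_contra hz
    have h2 : (x, z) ∈ ntc (p := p) v A :=
      mem_ntc.2 ⟨fun i => (mem_sdiff.1 (h i)).1, hz⟩
    exact (mem_sdiff.1 (h j)).2 (mem_image.2 ⟨(x, z), h2, rfl⟩)
  have h2 := le_r v h1
  have h3 : A.card ≤ D.card + (A \ D).card := by
    calc A.card ≤ (D ∪ (A \ D)).card := card_le_card (by
          intro x hx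
          by_cases hxD : x ∈ D
          · exact mem_union_left _ hxD
          · exact mem_union_right _ (mem_sdiff.2 ⟨hx, hxD⟩))
      _ ≤ _ := card_union_le _ _
  have h4 : D.card ≤ (ntc (p := p) v A).card := card_image_le
  omega

theorem recursion [Nonempty ι] (v : ι → Γ) (n m : ℕ) (A : Finset (Fin (n + m) → Γ)) :
    p ^ m * A.card ≤ (ntc (p := p) v A).card + (Fintype.card Γ * p) ^ m * r p v n := by
  induction m with
  | zero =>
    have := deletion (p := p) v A
    simpa using this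
  | succ m ih =>
    obtain ⟨B, hB⟩ := hyper (p := p) v (n := n + m) A (p ^ m)
    have h1 := ih B
    have h2 : ((p ^ m * B.card : ℕ) : ℤ) - (ntc (p := p) v B).card
        ≤ ((Fintype.card Γ * p) ^ m * r p v n : ℕ) := by
      have : ((p ^ m * B.card : ℕ) : ℤ) ≤
          ((ntc (p := p) v B).card + (Fintype.card Γ * p) ^ m * r p v n : ℕ) := by
        exact_mod_cast h1
      push_cast at this ⊢
      linarith
    have h3 := mul_le_mul_of_nonneg_left h2
      (show (0 : ℤ) ≤ (Fintype.card Γ * p : ℕ) from Int.natCast_nonneg _)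
    have h4 := hB.trans h3
    have h5 : ((p * p ^ m * A.card : ℕ) : ℤ) ≤ (ntc (p := p) v A).card
        + ((Fintype.card Γ * p : ℕ) : ℤ) * ((Fintype.card Γ * p) ^ m * r p v n : ℕ) := by
      linarith
    have h6 : p * p ^ m * A.card ≤ (ntc (p := p) v A).card
        + (Fintype.card Γ * p) * ((Fintype.card Γ * p) ^ m * r p v n) := by exact_mod_cast h5
    calc p ^ (m + 1) * A.card = p * p ^ m * A.card := by rw [pow_succ]; ring
      _ ≤ _ := h6
      _ = _ := by rw [pow_succ]; ring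

theorem recursion' [Nonempty ι] (v : ι → Γ) (n m L : ℕ) (hL : L = n + m)
    (A : Finset (Fin L → Γ)) :
    p ^ m * A.card ≤ (ntc (p := p) v A).card + (Fintype.card Γ * p) ^ m * r p v n := by
  subst hL
  exact recursion v n m A

/-- blocks -/
def blk (N n : ℕ) (X : Type*) : (Fin N → Fin n → X) ≃ (Fin (N * n) → X) :=
  (Equiv.curry (Fin N) (Fin n) X).symm.trans (Equiv.arrowCongr finProdFinEquiv (Equiv.refl X))

lemma blk_symm_apply (N n : ℕ) (X : Type*) (f : Fin (N * n) → X) (a : Fin N) (b : Fin n) :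
    (blk N n X).symm f a b = f (finProdFinEquiv (a, b)) := rfl

lemma blk_pt (v : ι → Γ) (N n : ℕ) (x : Fin (N * n) → Γ) (z : Fin (N * n) → ZMod p) (j : ι)
    (a : Fin N) : (blk N n Γ).symm (pt v x z j) a
      = pt v ((blk N n Γ).symm x a) ((blk N n (ZMod p)).symm z a) j := by
  funext b
  rfl

/-- the power of a set -/
def pw {n : ℕ} (A : Finset (Fin n → Γ)) (N : ℕ) : Finset (Fin (N * n) → Γ) :=
  (Fintype.piFinset fun _ : Fin N => A).map (blk N n Γ).toEmbedding

lemma mem_pw {n : ℕ} (A : Finset (Fin n → Γ)) (N : ℕ) (x : Fin (N * n) → Γ) :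
    x ∈ pw A N ↔ ∀ a, (blk N n Γ).symm x a ∈ A := by
  rw [pw, mem_map_equiv, Fintype.mem_piFinset]

lemma card_pw {n : ℕ} (A : Finset (Fin n → Γ)) (N : ℕ) : (pw A N).card = A.card ^ N := by
  rw [pw, card_map, Fintype.card_piFinset]
  simp

lemma free_pw (v : ι → Γ) {n : ℕ} {A : Finset (Fin n → Γ)} (h : Free (p := p) v A) (N : ℕ) :
    Free (p := p) v (pw A N) := by
  intro x z hx
  have h1 : ∀ a, (blk N n (ZMod p)).symm z a = 0 := by
    intro a
    apply h ((blk N n Γ).symm x a)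
    intro j
    rw [← blk_pt]
    exact (mem_pw _ _ _).1 (hx j) a
  have h2 : (blk N n (ZMod p)).symm z = 0 := funext h1
  have h3 : z = (blk N n (ZMod p)) 0 := by rw [← h2, Equiv.apply_symm_apply]
  rw [h3]
  rfl

lemma card_cop_pw (v : ι → Γ) {n : ℕ} (A : Finset (Fin n → Γ)) (N : ℕ) :
    (cop (p := p) v (pw A N)).card = (cop (p := p) v A).card ^ N := by
  classical
  have e : (cop (p := p) v A).card ^ N
      = (Fintype.piFinset fun _ : Fin N => cop (p := p) v A).card := by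
    rw [Fintype.card_piFinset]; simp
  rw [e]
  apply card_nbij' (fun q => fun a => ((blk N n Γ).symm q.1 a, (blk N n (ZMod p)).symm q.2 a))
    (fun f => (blk N n Γ (fun a => (f a).1), blk N n (ZMod p) (fun a => (f a).2)))
  · rintro ⟨x, z⟩ hq
    rw [mem_coe, mem_cop] at hq
    rw [mem_coe, Fintype.mem_piFinset]
    intro a
    rw [mem_cop]
    intro j
    simp only
    rw [← blk_pt]
    exact (mem_pw _ _ _).1 (hq j) a
  · intro f hf
    rw [mem_coe, Fintype.mem_piFinset] at hf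
    rw [mem_coe, mem_cop]
    intro j
    rw [mem_pw]
    intro a
    rw [blk_pt]
    simp only [Equiv.symm_apply_apply]
    exact mem_cop.1 (hf a) j
  · rintro ⟨x, z⟩ _
    simp
  · intro f _
    simp

lemma r_pow [Nonempty ι] (v : ι → Γ) (n N : ℕ) : r p v n ^ N ≤ r p v (N * n) := by
  obtain ⟨A, hA, hc⟩ := exists_r (p := p) v n
  rw [← hc, ← card_pw]
  exact le_r v (free_pw v hA N)

lemma le_one_of_pow (x C : ℝ) (h : ∀ N : ℕ, 1 ≤ N → x ^ N ≤ C) : x ≤ 1 := by
  by_contra hx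
  push Not at hx
  obtain ⟨N, hN⟩ := pow_unbounded_of_one_lt C hx
  have h1 := h (N + 1) (by omega)
  have h2 : x ^ N ≤ x ^ (N + 1) := pow_le_pow_right₀ hx.le (by omega)
  linarith

/-- the constant in a power-saving bound can be removed -/
theorem r_le_of_const [Nonempty ι] (v : ι → Γ) (R C : ℝ) (hR : 0 < R)
    (h : ∀ n : ℕ, 1 ≤ n → (r p v n : ℝ) ≤ C * R ^ n) (n : ℕ) (hn : 1 ≤ n) :
    (r p v n : ℝ) ≤ R ^ n := by
  have hRn : 0 < R ^ n := pow_pos hR n
  have h1 : (r p v n : ℝ) / R ^ n ≤ 1 := by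
    apply le_one_of_pow _ C
    intro N hN
    rw [div_pow, div_le_iff₀ (pow_pos hRn N)]
    calc (r p v n : ℝ) ^ N ≤ (r p v (N * n) : ℝ) := by exact_mod_cast r_pow v n N
      _ ≤ C * R ^ (N * n) := h _ (Nat.mul_pos hN hn)
      _ = C * (R ^ n) ^ N := by rw [← pow_mul, mul_comm N n]
  rwa [div_le_one hRn] at h1

/-- sharp supersaturation, first form -/
theorem supersat [Nonempty ι] (v : ι → Γ) (e : ℝ) (he : 0 < e)
    (h : ∀ n : ℕ, (r p v n : ℝ) ≤ ((Fintype.card Γ : ℝ) * (p : ℝ) ^ (-e)) ^ n) {n : ℕ}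
    (A : Finset (Fin n → Γ)) (hA : A.Nonempty) :
    (A.card : ℝ) ≤ (((cop (p := p) v A).card : ℝ) / A.card) ^ e
      * ((Fintype.card Γ : ℝ) * (p : ℝ) ^ (-e)) ^ n := by
  have hp1 : (1 : ℝ) < p := by exact_mod_cast hp.out.one_lt
  have hp0 : (0 : ℝ) < p := by linarith
  set G : ℝ := (Fintype.card Γ : ℝ) with hG
  have hG0 : 0 < G := by rw [hG]; exact_mod_cast Fintype.card_pos
  set R : ℝ := G * (p : ℝ) ^ (-e) with hR
  have hR0 : 0 < R := by positivity
  have hGR : G = R * (p : ℝ) ^ e := by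
    rw [hR, mul_assoc, ← Real.rpow_add hp0]; simp
  set a : ℝ := (A.card : ℝ) with ha
  have ha0 : 0 < a := by rw [ha]; exact_mod_cast card_pos.2 hA
  set T : ℝ := ((cop (p := p) v A).card : ℝ) with hT
  have hTa : a ≤ T := by
    rw [ha, hT, card_cop]
    exact_mod_cast Nat.le_add_right _ _
  set τ : ℝ := T / a with hτ
  have hτ1 : 1 ≤ τ := by rw [hτ, le_div_iff₀ ha0]; linarith
  have hτ0 : 0 < τ := by linarith
  have hRn : 0 < R ^ n := pow_pos hR0 n
  have hτe : 0 < τ ^ e := Real.rpow_pos_of_pos hτ0 e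
  clear_value τ T a R G
  have key : a / (τ ^ e * R ^ n) ≤ 1 := by
    apply le_one_of_pow _ (2 * (2 * p) ^ e)
    intro N hN
    have hτN : 1 ≤ 2 * τ ^ N := by
      have := one_le_pow₀ hτ1 (n := N)
      linarith
    obtain ⟨m0, hm0, hm1⟩ := exists_nat_pow_near hτN hp1
    have hτNe : (τ ^ N) ^ e = (τ ^ e) ^ N := by
      rw [← Real.rpow_natCast, ← Real.rpow_natCast, ← Real.rpow_mul hτ0.le,
        ← Real.rpow_mul hτ0.le, mul_comm]
    rw [div_pow, mul_pow, div_le_iff₀ (by positivity)]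
    have htarget : (2 * p * τ ^ N) ^ e * (R ^ n) ^ N ≤ (2 * p) ^ e * ((τ ^ e) ^ N * (R ^ n) ^ N) := by
      rw [Real.mul_rpow (by positivity) (by positivity), hτNe]
      ring_nf
      exact le_rfl
    by_cases hcase : m0 + 1 ≤ N * n
    · obtain ⟨k, hk⟩ := Nat.exists_eq_add_of_le' hcase
      have hrec := recursion' (p := p) v k (m0 + 1) (N * n) hk (pw A N)
      have hcc := card_cop (p := p) v (pw A N)
      rw [card_cop_pw] at hcc
      rw [card_pw] at hrec hcc
      have hrec' : (p : ℝ) ^ (m0 + 1) * a ^ N ≤ T ^ N + (G * p) ^ (m0 + 1) * R ^ k := by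
        have h1 : p ^ (m0 + 1) * A.card ^ N ≤ (cop (p := p) v A).card ^ N
            + (Fintype.card Γ * p) ^ (m0 + 1) * r p v k := by omega
        have h2 : (p : ℝ) ^ (m0 + 1) * a ^ N ≤ T ^ N + (G * p) ^ (m0 + 1) * (r p v k : ℝ) := by
          rw [ha, hT, hG]
          exact_mod_cast h1
        refine h2.trans (add_le_add le_rfl (mul_le_mul_of_nonneg_left (h k) (by positivity)))
      have hTN : T ^ N = τ ^ N * a ^ N := by
        rw [hτ, div_pow, div_mul_cancel₀ _ (pow_pos ha0 N).ne']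
      have h3 : T ^ N ≤ (p : ℝ) ^ (m0 + 1) * a ^ N / 2 := by
        rw [hTN]
        have : τ ^ N ≤ (p : ℝ) ^ (m0 + 1) / 2 := by linarith
        have h4 := mul_le_mul_of_nonneg_right this (pow_pos ha0 N).le
        linarith
      have h5 : (p : ℝ) ^ (m0 + 1) * a ^ N ≤ 2 * ((G * p) ^ (m0 + 1) * R ^ k) := by linarith
      have h6 : a ^ N ≤ 2 * (G ^ (m0 + 1) * R ^ k) := by
        rw [mul_pow] at h5
        have hpm : 0 < (p : ℝ) ^ (m0 + 1) := pow_pos hp0 _
        have h7 : (p : ℝ) ^ (m0 + 1) * a ^ N ≤ (p : ℝ) ^ (m0 + 1) * (2 * (G ^ (m0 + 1) * R ^ k)) := by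
          calc _ ≤ _ := h5
            _ = _ := by ring
        exact le_of_mul_le_mul_left h7 hpm
      have h8 : G ^ (m0 + 1) * R ^ k = ((p : ℝ) ^ (m0 + 1)) ^ e * (R ^ n) ^ N := by
        rw [hGR, mul_pow, ← pow_mul, mul_comm n N, hk, pow_add]
        have : ((p : ℝ) ^ e) ^ (m0 + 1) = ((p : ℝ) ^ (m0 + 1)) ^ e := by
          rw [← Real.rpow_natCast, ← Real.rpow_natCast, ← Real.rpow_mul hp0.le,
            ← Real.rpow_mul hp0.le, mul_comm]
        rw [this]; ring
      have h9 : ((p : ℝ) ^ (m0 + 1)) ^ e ≤ (2 * p * τ ^ N) ^ e := by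
        apply Real.rpow_le_rpow (by positivity) _ he.le
        rw [pow_succ]
        nlinarith
      calc a ^ N ≤ 2 * (((p : ℝ) ^ (m0 + 1)) ^ e * (R ^ n) ^ N) := by rw [← h8]; exact h6
        _ ≤ 2 * ((2 * p * τ ^ N) ^ e * (R ^ n) ^ N) := by
          apply mul_le_mul_of_nonneg_left _ (by norm_num)
          exact mul_le_mul_of_nonneg_right h9 (by positivity)
        _ ≤ 2 * ((2 * p) ^ e * ((τ ^ e) ^ N * (R ^ n) ^ N)) :=
          mul_le_mul_of_nonneg_left htarget (by norm_num)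
        _ = _ := by ring
    · push Not at hcase
      have h1 : (p : ℝ) ^ (N * n) ≤ 2 * τ ^ N := by
        refine le_trans ?_ hm0
        exact pow_le_pow_right₀ hp1.le (by omega)
      have h2 : a ≤ G ^ n := by
        rw [ha, hG]
        have := card_le_univ A
        rw [Fintype.card_fun, Fintype.card_fin] at this
        exact_mod_cast this
      have h3 : a ^ N ≤ ((p : ℝ) ^ (N * n)) ^ e * (R ^ n) ^ N := by
        calc a ^ N ≤ (G ^ n) ^ N := pow_le_pow_left₀ ha0.le h2 N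
          _ = ((p : ℝ) ^ (N * n)) ^ e * (R ^ n) ^ N := by
            rw [hGR, mul_pow, mul_pow, mul_comm]
            congr 1
            rw [← pow_mul, ← Real.rpow_natCast, ← Real.rpow_natCast, ← Real.rpow_mul hp0.le,
              ← Real.rpow_mul hp0.le, mul_comm e, mul_comm n N]
      have h4 : ((p : ℝ) ^ (N * n)) ^ e ≤ (2 * p * τ ^ N) ^ e := by
        apply Real.rpow_le_rpow (by positivity) _ he.le
        have : 0 < τ ^ N := pow_pos hτ0 N
        nlinarith
      calc a ^ N ≤ ((p : ℝ) ^ (N * n)) ^ e * (R ^ n) ^ N := h3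
        _ ≤ (2 * p * τ ^ N) ^ e * (R ^ n) ^ N := mul_le_mul_of_nonneg_right h4 (by positivity)
        _ ≤ (2 * p) ^ e * ((τ ^ e) ^ N * (R ^ n) ^ N) := htarget
        _ ≤ 2 * (2 * p) ^ e * ((τ ^ e) ^ N * (R ^ n) ^ N) := by
          have : 0 ≤ (2 * p : ℝ) ^ e * ((τ ^ e) ^ N * (R ^ n) ^ N) := by positivity
          nlinarith
  rwa [div_le_one (by positivity)] at key

/-- sharp supersaturation -/
theorem supersat' [Nonempty ι] (v : ι → Γ) (e : ℝ) (he : 0 < e)
    (h : ∀ n : ℕ, (r p v n : ℝ) ≤ ((Fintype.card Γ : ℝ) * (p : ℝ) ^ (-e)) ^ n) {n : ℕ}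
    (A : Finset (Fin n → Γ)) :
    ((A.card : ℝ) / (Fintype.card Γ : ℝ) ^ n) ^ (1 + 1 / e) * ((Fintype.card Γ : ℝ) * p) ^ n
      ≤ ((cop (p := p) v A).card : ℝ) := by
  have hp1 : (1 : ℝ) < p := by exact_mod_cast hp.out.one_lt
  have hp0 : (0 : ℝ) < p := by linarith
  rcases A.eq_empty_or_nonempty with rfl | hA
  · have : (1 + 1 / e) ≠ 0 := by positivity
    rw [card_empty, Nat.cast_zero, zero_div, Real.zero_rpow this, zero_mul]
    exact Nat.cast_nonneg _
  have h1 := supersat v e he h A hA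
  set G : ℝ := (Fintype.card Γ : ℝ) with hG
  have hG0 : 0 < G := by rw [hG]; exact_mod_cast Fintype.card_pos
  set a : ℝ := (A.card : ℝ) with ha
  have ha0 : 0 < a := by rw [ha]; exact_mod_cast card_pos.2 hA
  set T : ℝ := ((cop (p := p) v A).card : ℝ) with hT
  have hTa : a ≤ T := by
    rw [ha, hT, card_cop]
    exact_mod_cast Nat.le_add_right _ _
  have hT0 : 0 < T := by linarith
  have hGn : 0 < G ^ n := pow_pos hG0 n
  set α : ℝ := a / G ^ n with hα
  have hα0 : 0 < α := by positivity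
  clear_value α T a G
  have h2 : α * ((p : ℝ) ^ n) ^ e ≤ (T / a) ^ e := by
    have e1 : (G * (p : ℝ) ^ (-e)) ^ n = G ^ n * (((p : ℝ) ^ n) ^ e)⁻¹ := by
      rw [mul_pow, ← Real.rpow_neg (by positivity)]
      congr 1
      rw [← Real.rpow_natCast, ← Real.rpow_natCast, ← Real.rpow_mul hp0.le,
        ← Real.rpow_mul hp0.le, mul_comm]
    rw [e1] at h1
    rw [hα, div_mul_eq_mul_div, div_le_iff₀ hGn]
    have h3 : 0 < ((p : ℝ) ^ n) ^ e := by positivity
    calc a * ((p : ℝ) ^ n) ^ e ≤ ((T / a) ^ e * (G ^ n * (((p : ℝ) ^ n) ^ e)⁻¹)) * ((p : ℝ) ^ n) ^ e :=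
          mul_le_mul_of_nonneg_right h1 h3.le
      _ = (T / a) ^ e * G ^ n := by field_simp
  have h4 : α ^ (1 / e) * (p : ℝ) ^ n ≤ T / a := by
    have h5 := Real.rpow_le_rpow (by positivity) h2 (show (0 : ℝ) ≤ 1 / e by positivity)
    rwa [Real.mul_rpow hα0.le (by positivity), ← Real.rpow_mul (by positivity),
      ← Real.rpow_mul (by positivity), mul_one_div_cancel he.ne', Real.rpow_one,
      Real.rpow_one] at h5
  rw [le_div_iff₀ ha0] at h4
  calc α ^ (1 + 1 / e) * (G * p) ^ n = (α ^ (1 / e) * (p : ℝ) ^ n) * (α * G ^ n) := by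
        rw [Real.rpow_add hα0, Real.rpow_one, mul_pow]; ring
    _ = (α ^ (1 / e) * (p : ℝ) ^ n) * a := by
        rw [hα, div_mul_cancel₀ _ hGn.ne']
    _ ≤ T := h4

/-- converse: supersaturation with a constant gives a power saving without a constant -/
theorem saving_of_supersat [Nonempty ι] (v : ι → Γ) (e κ : ℝ) (he : 0 < e) (hκ : 0 < κ)
    (h : ∀ n : ℕ, 1 ≤ n → ∀ A : Finset (Fin n → Γ),
      κ * (((A.card : ℝ) / (Fintype.card Γ : ℝ) ^ n) ^ (1 + 1 / e)
        * ((Fintype.card Γ : ℝ) * p) ^ n) ≤ ((cop (p := p) v A).card : ℝ)) (n : ℕ) :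
    (r p v n : ℝ) ≤ ((Fintype.card Γ : ℝ) * (p : ℝ) ^ (-e)) ^ n := by
  have hp1 : (1 : ℝ) < p := by exact_mod_cast hp.out.one_lt
  have hp0 : (0 : ℝ) < p := by linarith
  set G : ℝ := (Fintype.card Γ : ℝ) with hG
  have hG0 : 0 < G := by rw [hG]; exact_mod_cast Fintype.card_pos
  rcases Nat.eq_zero_or_pos n with rfl | hn
  · simp only [pow_zero]
    obtain ⟨A, _, hA⟩ := exists_r (p := p) v 0
    rw [← hA]
    have := card_le_univ A
    rw [Fintype.card_fun, Fintype.card_fin, pow_zero] at this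
    exact_mod_cast this
  refine r_le_of_const v (G * (p : ℝ) ^ (-e)) (κ⁻¹ ^ e) (by positivity) ?_ n hn
  intro n hn
  obtain ⟨A, hA, hc⟩ := exists_r (p := p) v n
  rcases A.eq_empty_or_nonempty with rfl | hne
  · rw [← hc, card_empty, Nat.cast_zero]; positivity
  have h1 := h n hn A
  have h0 : (ntc (p := p) v A).card = 0 := by
    rw [card_eq_zero]
    apply eq_empty_of_forall_notMem
    rintro ⟨x, z⟩ hq
    rw [mem_ntc] at hq
    exact hq.2 (hA x z hq.1)
  rw [card_cop, h0, add_zero, hc] at h1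
  set a : ℝ := (r p v n : ℝ) with ha
  have ha0 : 0 < a := by rw [ha, ← hc]; exact_mod_cast card_pos.2 hne
  have hGn : 0 < G ^ n := pow_pos hG0 n
  set α : ℝ := a / G ^ n with hα
  have hα0 : 0 < α := by positivity
  have haα : a = α * G ^ n := by rw [hα, div_mul_cancel₀ _ hGn.ne']
  clear_value α a G
  have h2 : κ * (α ^ (1 / e) * (p : ℝ) ^ n) ≤ 1 := by
    rw [Real.rpow_add hα0, Real.rpow_one, mul_pow] at h1
    have h3 : κ * (α ^ (1 / e) * (p : ℝ) ^ n) * a ≤ 1 * a := by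
      calc κ * (α ^ (1 / e) * (p : ℝ) ^ n) * a
          = κ * (α * α ^ (1 / e) * (G ^ n * (p : ℝ) ^ n)) := by rw [haα]; ring
        _ ≤ a := h1
        _ = 1 * a := by ring
    exact le_of_mul_le_mul_right h3 ha0
  have h4 : α ^ (1 / e) ≤ κ⁻¹ * ((p : ℝ) ^ n)⁻¹ := by
    have hpn : 0 < (p : ℝ) ^ n := pow_pos hp0 n
    rw [← mul_inv, le_inv_comm₀ (by positivity) (by positivity)]
    rw [le_inv_comm₀ (by positivity) (by positivity)]
    have h5 : α ^ (1 / e) * (κ * (p : ℝ) ^ n) ≤ 1 := by linarith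
    rw [← one_div, le_div_iff₀ (by positivity)]
    exact h5
  have h5 : α ≤ κ⁻¹ ^ e * ((p : ℝ) ^ (-e)) ^ n := by
    have h6 := Real.rpow_le_rpow (by positivity) h4 he.le
    rw [← Real.rpow_mul hα0.le, one_div_mul_cancel he.ne', Real.rpow_one,
      Real.mul_rpow (by positivity) (by positivity)] at h6
    refine h6.trans (le_of_eq ?_)
    congr 1
    rw [← Real.rpow_natCast, ← Real.rpow_natCast, ← Real.rpow_neg hp0.le, ← Real.rpow_mul hp0.le,
      ← Real.rpow_mul hp0.le]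
    congr 1
    ring
  calc a = α * G ^ n := haα
    _ ≤ (κ⁻¹ ^ e * ((p : ℝ) ^ (-e)) ^ n) * G ^ n := mul_le_mul_of_nonneg_right h5 hGn.le
    _ = κ⁻¹ ^ e * (G * (p : ℝ) ^ (-e)) ^ n := by rw [mul_pow]; ring

end Run7.h125.Sat
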