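import Pool.Agent.Run7.h125.Sat.Rec

/-!
The growth rate of the largest sets without nontrivial copies is not attained.
-/

namespace Run7.h125.Sat

open Finset Filter Topology

variable {p : ℕ} [hp : Fact p.Prime] {Γ : Type*} [AddCommGroup Γ] [Module (ZMod p) Γ]
  [Fintype Γ] [DecidableEq Γ] {ι : Type*} [Fintype ι]

/-- words of `N` letters, one of which is `s` and the other ones are in `A` -/
def one {X : Type*} [DecidableEq X] (A : Finset X) (s : X) (N : ℕ) (a : Fin N) :
    Finset (Fin N → X) :=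
  Fintype.piFinset fun b => if b = a then {s} else A

lemma mem_one {X : Type*} [DecidableEq X] {A : Finset X} {s : X} {N : ℕ} {a : Fin N}
    {w : Fin N → X} : w ∈ one A s N a ↔ w a = s ∧ ∀ b, b ≠ a → w b ∈ A := by
  rw [one, Fintype.mem_piFinset]
  constructor
  · intro h
    refine ⟨by simpa using h a, fun b hb => by simpa [hb] using h b⟩
  · rintro ⟨h1, h2⟩ b
    by_cases hb : b = a
    · subst hb; simp [h1]
    · simpa [hb] using h2 b hb

lemma card_one {X : Type*} [DecidableEq X] (A : Finset X) (s : X) (N : ℕ) (a : Fin N) :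
    (one A s N a).card = A.card ^ (N - 1) := by
  rw [one, Fintype.card_piFinset]
  rw [← mul_prod_erase univ _ (mem_univ a)]
  have : ∏ b ∈ univ.erase a, (if b = a then ({s} : Finset X) else A).card
      = ∏ _b ∈ univ.erase a, A.card := by
    apply prod_congr rfl
    intro b hb
    rw [if_neg (ne_of_mem_erase hb)]
  rw [this, prod_const, card_erase_of_mem (mem_univ a), card_univ, Fintype.card_fin]
  simp

/-- all words with exactly one letter `s` and the other letters in `A` -/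
def wds {X : Type*} [DecidableEq X] (A : Finset X) (s : X) (N : ℕ) : Finset (Fin N → X) :=
  univ.biUnion (one A s N)

lemma mem_wds {X : Type*} [DecidableEq X] {A : Finset X} {s : X} {N : ℕ} {w : Fin N → X} :
    w ∈ wds A s N ↔ ∃ a, w a = s ∧ ∀ b, b ≠ a → w b ∈ A := by
  rw [wds, mem_biUnion]
  simp [mem_one]

lemma card_wds {X : Type*} [DecidableEq X] (A : Finset X) (s : X) (hs : s ∉ A) (N : ℕ) :
    (wds A s N).card = N * A.card ^ (N - 1) := by
  rw [wds, card_biUnion]
  · simp_rw [card_one]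
    simp
  · intro a _ b _ hab
    rw [Function.onFun, disjoint_left]
    intro w hw hw'
    rw [mem_one] at hw hw'
    exact hs (hw.1 ▸ hw'.2 a hab)

/-- few copies among the words with one letter outside of `A` -/
lemma ntc_words [Nonempty ι] (v : ι → Γ) {n : ℕ} (A : Finset (Fin n → Γ))
    (hA : Free (p := p) v A) (s : Fin n → Γ) (N : ℕ) (hN : 0 < N) :
    (ntc (p := p) v ((wds A s N).map (blk N n Γ).toEmbedding)).card
      ≤ (N * p ^ n) ^ Fintype.card ι * (wds A s N).card := by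
  classical
  set B := (wds A s N).map (blk N n Γ).toEmbedding with hB
  have hmem : ∀ w, w ∈ B ↔ (blk N n Γ).symm w ∈ wds A s N := by
    intro w; rw [hB, mem_map_equiv]
  obtain ⟨j0⟩ := ‹Nonempty ι›
  have : Nonempty (Fin N) := ⟨⟨0, hN⟩⟩
  -- the positions
  have hpos : ∀ (q : (Fin (N * n) → Γ) × (Fin (N * n) → ZMod p)), q ∈ ntc (p := p) v B →
      ∃ f : ι → Fin N, ∀ a, (∀ j, f j ≠ a) → (blk N n (ZMod p)).symm q.2 a = 0 := by
    rintro ⟨x, z⟩ hq
    rw [mem_ntc] at hq
    have h1 : ∀ j, ∃ a, (blk N n Γ).symm (pt v x z j) a = s ∧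
        ∀ b, b ≠ a → (blk N n Γ).symm (pt v x z j) b ∈ A := fun j =>
      mem_wds.1 ((hmem _).1 (hq.1 j))
    choose f hf using h1
    refine ⟨f, fun a ha => ?_⟩
    apply hA ((blk N n Γ).symm x a)
    intro j
    rw [← blk_pt]
    exact (hf j).2 a (ha j).symm
  choose! f hf using hpos
  have hcard : ((univ : Finset (ι → Fin N)) ×ˢ ((univ : Finset (ι → Fin n → ZMod p)) ×ˢ
      wds A s N)).card = (N * p ^ n) ^ Fintype.card ι * (wds A s N).card := by
    rw [card_product, card_product, card_univ, card_univ, Fintype.card_fun, Fintype.card_fun,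
      Fintype.card_fun, Fintype.card_fin, Fintype.card_fin, ZMod.card, mul_pow, mul_assoc]
  rw [← hcard]
  apply card_le_card_of_injOn (fun q => (f q, fun j => (blk N n (ZMod p)).symm q.2 (f q j),
    (blk N n Γ).symm (pt v q.1 q.2 j0)))
  · intro q hq
    rw [mem_coe] at hq
    rw [mem_coe, mem_product, mem_product]
    refine ⟨mem_univ _, mem_univ _, ?_⟩
    exact (hmem _).1 ((mem_ntc.1 hq).1 j0)
  · intro q hq q' hq' h
    rw [mem_coe] at hq hq'
    simp only [Prod.mk.injEq] at h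
    obtain ⟨h1, h2, h3⟩ := h
    have hz : q.2 = q'.2 := by
      apply (blk N n (ZMod p)).symm.injective
      funext a
      by_cases ha : ∀ j, f q j ≠ a
      · rw [hf q hq a ha, hf q' hq' a (by rwa [← h1])]
      · push Not at ha
        obtain ⟨j, hj⟩ := ha
        have := congrFun h2 j
        rw [← h1, hj] at this
        exact this
    have hp' : pt v q.1 q.2 j0 = pt v q'.1 q'.2 j0 := (blk N n Γ).symm.injective h3
    have hx : q.1 = q'.1 := by
      funext i
      have := congrFun hp' i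
      rw [pt_apply, pt_apply, hz] at this
      exact add_right_cancel this
    exact Prod.ext hx hz

/-- strictness: if `r(l) ≤ R^l` for all `l`, then `r(n) < R^n` for all `n ≥ 1` -/
theorem strict [Nonempty ι] (v : ι → Γ) (e : ℝ) (he : 0 < e)
    (hk : e * Fintype.card ι < 1)
    (h : ∀ n : ℕ, (r p v n : ℝ) ≤ ((Fintype.card Γ : ℝ) * (p : ℝ) ^ (-e)) ^ n) (n : ℕ)
    (hn : 1 ≤ n) :
    (r p v n : ℝ) < ((Fintype.card Γ : ℝ) * (p : ℝ) ^ (-e)) ^ n := by
  classical
  have hp1 : (1 : ℝ) < p := by exact_mod_cast hp.out.one_lt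
  have hp0 : (0 : ℝ) < p := by linarith
  refine lt_of_le_of_ne (h n) fun heq => ?_
  obtain ⟨A, hA, hc⟩ := exists_r (p := p) v n
  -- a letter outside of `A`
  obtain ⟨s, hs⟩ : ∃ s, s ∉ A := by
    by_contra hcon
    push Not at hcon
    have := hA 0 (fun _ => 1) fun j => hcon _
    have h1 := congrFun this ⟨0, hn⟩
    simp at h1
  set G : ℝ := (Fintype.card Γ : ℝ) with hG
  have hG0 : 0 < G := by rw [hG]; exact_mod_cast Fintype.card_pos
  set R : ℝ := G * (p : ℝ) ^ (-e) with hR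
  have hR0 : 0 < R := by positivity
  have hGR : G = R * (p : ℝ) ^ e := by
    rw [hR, mul_assoc, ← Real.rpow_add hp0]; simp
  set a : ℝ := (r p v n : ℝ) with ha
  have ha0 : 0 < a := by rw [heq]; positivity
  set k : ℕ := Fintype.card ι with hkdef
  set P : ℝ := (p : ℝ) ^ n with hP
  have hP1 : 1 ≤ P := one_le_pow₀ hp1.le
  -- the main inequality
  have main : ∀ N : ℕ, 1 ≤ N → 2 * p * (N * P) ^ k ≤ (p : ℝ) ^ (N * n) →
      (N : ℝ) ≤ 2 * a * (2 * p * (N * P) ^ k) ^ e := by
    intro N hN hbig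
    have hN' : (1 : ℝ) ≤ N := by exact_mod_cast hN
    have hNP : 1 ≤ 2 * ((N : ℝ) * P) ^ k := by
      have : 1 ≤ ((N : ℝ) * P) ^ k := one_le_pow₀ (by nlinarith)
      linarith
    obtain ⟨m0, hm0, hm1⟩ := exists_nat_pow_near hNP hp1
    have hmle : (p : ℝ) ^ (m0 + 1) ≤ (p : ℝ) ^ (N * n) := by
      refine le_trans ?_ hbig
      rw [pow_succ]
      nlinarith
    have hcase : m0 + 1 ≤ N * n := (pow_le_pow_iff_right₀ hp1).1 hmle
    obtain ⟨l, hl⟩ := Nat.exists_eq_add_of_le' hcase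
    have hrec := recursion' (p := p) v l (m0 + 1) (N * n) hl
      ((wds A s N).map (blk N n Γ).toEmbedding)
    have hnt := ntc_words v A hA s N hN
    rw [card_map] at hrec
    rw [card_wds A s hs, ← hkdef] at hnt
    rw [card_wds A s hs] at hrec
    set W : ℝ := (N : ℝ) * a ^ (N - 1) with hW
    have hW0 : 0 < W := by positivity
    have h1 : (p : ℝ) ^ (m0 + 1) * W ≤ (N * P) ^ k * W + (G * p) ^ (m0 + 1) * (r p v l : ℝ) := by
      have h2 : p ^ (m0 + 1) * (N * A.card ^ (N - 1)) ≤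
          (N * p ^ n) ^ k * (N * A.card ^ (N - 1)) + (Fintype.card Γ * p) ^ (m0 + 1) * r p v l := by
        omega
      rw [hc] at h2
      rw [hW, ha, hP, hG]
      exact_mod_cast h2
    have h3 : (N * P) ^ k * W ≤ (p : ℝ) ^ (m0 + 1) * W / 2 := by
      have : ((N : ℝ) * P) ^ k ≤ (p : ℝ) ^ (m0 + 1) / 2 := by linarith
      have := mul_le_mul_of_nonneg_right this hW0.le
      linarith
    have h4 : W ≤ 2 * (G ^ (m0 + 1) * R ^ l) := by
      have h5 : (p : ℝ) ^ (m0 + 1) * W ≤ (p : ℝ) ^ (m0 + 1) * (2 * (G ^ (m0 + 1) * (r p v l : ℝ))) := by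
        have e1 : (G * (p : ℝ)) ^ (m0 + 1) = G ^ (m0 + 1) * (p : ℝ) ^ (m0 + 1) := mul_pow _ _ _
        rw [e1] at h1
        linarith
      have h6 := le_of_mul_le_mul_left h5 (pow_pos hp0 _)
      refine h6.trans ?_
      have := mul_le_mul_of_nonneg_left (h l) (pow_pos hG0 (m0 + 1)).le
      linarith
    have h7 : a ^ N = R ^ l * R ^ (m0 + 1) := by
      rw [heq, ← pow_mul, ← pow_add, mul_comm n N, hl]
    have h8 : (N : ℝ) * a ^ N = a * W := by
      obtain ⟨N', rfl⟩ := Nat.exists_eq_add_of_le' hN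
      rw [hW]
      simp only [Nat.add_sub_cancel]
      rw [pow_succ]; ring
    have h9 : (N : ℝ) * (R ^ l * R ^ (m0 + 1)) ≤ a * (2 * (G ^ (m0 + 1) * R ^ l)) := by
      rw [← h7, h8]
      exact mul_le_mul_of_nonneg_left h4 ha0.le
    have h10 : G ^ (m0 + 1) = R ^ (m0 + 1) * ((p : ℝ) ^ (m0 + 1)) ^ e := by
      rw [hGR, mul_pow]
      congr 1
      rw [← Real.rpow_natCast, ← Real.rpow_natCast, ← Real.rpow_mul hp0.le,
        ← Real.rpow_mul hp0.le, mul_comm]
    have h11 : (N : ℝ) * (R ^ l * R ^ (m0 + 1))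
        ≤ (2 * a * ((p : ℝ) ^ (m0 + 1)) ^ e) * (R ^ l * R ^ (m0 + 1)) := by
      calc _ ≤ _ := h9
        _ = _ := by rw [h10]; ring
    have h12 := le_of_mul_le_mul_right h11 (by positivity)
    refine h12.trans ?_
    apply mul_le_mul_of_nonneg_left _ (by positivity)
    apply Real.rpow_le_rpow (by positivity) _ he.le
    rw [pow_succ]
    nlinarith
  -- contradiction for large `N`
  have hgrow : ∀ᶠ N : ℕ in atTop, 2 * p * (N * P) ^ k ≤ (p : ℝ) ^ (N * n) := by
    have h1 : Tendsto (fun N : ℕ => (N : ℝ) ^ k / (p : ℝ) ^ N) atTop (𝓝 0) :=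
      tendsto_pow_const_div_const_pow_of_one_lt k hp1
    have h2 : ∀ᶠ N : ℕ in atTop, (N : ℝ) ^ k / (p : ℝ) ^ N < (2 * p * P ^ k)⁻¹ :=
      h1.eventually_lt_const (by positivity)
    filter_upwards [h2] with N hN
    have hpN : 0 < (p : ℝ) ^ N := pow_pos hp0 N
    rw [div_lt_iff₀ hpN, ← div_eq_inv_mul, lt_div_iff₀ (by positivity)] at hN
    calc 2 * p * (N * P) ^ k = (N : ℝ) ^ k * (2 * p * P ^ k) := by rw [mul_pow]; ring
      _ ≤ (p : ℝ) ^ N := hN.le
      _ ≤ (p : ℝ) ^ (N * n) := pow_le_pow_right₀ hp1.le (Nat.le_mul_of_pos_right _ hn)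
  have hcontra : ∀ᶠ N : ℕ in atTop, 2 * a * (2 * p * (N * P) ^ k) ^ e < (N : ℝ) := by
    have h1 : Tendsto (fun x : ℝ => x ^ (-(1 - e * k))) atTop (𝓝 0) :=
      tendsto_rpow_neg_atTop (by linarith)
    have h2 : Tendsto (fun N : ℕ => (N : ℝ) ^ (-(1 - e * k))) atTop (𝓝 0) :=
      h1.comp tendsto_natCast_atTop_atTop
    have h3 : ∀ᶠ N : ℕ in atTop, (N : ℝ) ^ (-(1 - e * k)) < (2 * a * (2 * p * P ^ k) ^ e)⁻¹ :=
      h2.eventually_lt_const (by positivity)
    filter_upwards [h3, eventually_ge_atTop 1] with N hN hN1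
    have hN0 : (0 : ℝ) < N := by exact_mod_cast hN1
    have hD : 0 < 2 * a * (2 * p * P ^ k) ^ e := by positivity
    rw [← one_div, lt_div_iff₀ hD] at hN
    have e1 : (2 * p * (N * P) ^ k) ^ e = (N : ℝ) ^ (e * k) * (2 * p * P ^ k) ^ e := by
      rw [mul_pow, show 2 * (p : ℝ) * ((N : ℝ) ^ k * P ^ k) = (N : ℝ) ^ k * (2 * p * P ^ k) by ring,
        Real.mul_rpow (by positivity) (by positivity), ← Real.rpow_natCast,
        ← Real.rpow_mul hN0.le, mul_comm e]
    have e2 : (N : ℝ) ^ (e * k) = N * (N : ℝ) ^ (-(1 - e * k)) := by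
      nth_rewrite 2 [← Real.rpow_one (N : ℝ)]
      rw [← Real.rpow_add hN0]
      congr 1; ring
    calc 2 * a * (2 * p * (N * P) ^ k) ^ e
        = N * ((N : ℝ) ^ (-(1 - e * k)) * (2 * a * (2 * p * P ^ k) ^ e)) := by
          rw [e1, e2]; ring
      _ < N * 1 := mul_lt_mul_of_pos_left hN hN0
      _ = N := mul_one _
  obtain ⟨N, hN1, hN2, hN3⟩ := (hgrow.and (hcontra.and (eventually_ge_atTop 1))).exists
  exact absurd (main N hN3 hN1) (not_le.2 hN2)

end Run7.h125.Sat
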