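import Pool.Agent.H523R2.Corner.Codes

/-!
A fast test for peeling certificates: the positions of the cells in the order are given by a table.
-/

namespace Run7.h125.Sat.Table

open Finset Pool.Agent.H523R2.Corner

/-- sum of `f 0, …, f (n - 1)` by recursion -/
def sumTo (f : ℕ → ℕ) : ℕ → ℕ
  | 0 => 0
  | n + 1 => sumTo f n + f n

lemma sumTo_eq (f : ℕ → ℕ) (n : ℕ) : sumTo f n = ∑ i ∈ range n, f i := by
  induction n with
  | zero => rfl
  | succ n ih => rw [sumTo, ih, sum_range_succ]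

/-- two-level sum -/
def sum2 (f : ℕ → ℕ) (u w : ℕ) : ℕ := sumTo (fun i => sumTo (fun j => f (w * i + j)) w) u

lemma sum2_eq (f : ℕ → ℕ) (u w : ℕ) : sum2 f u w = ∑ i ∈ range (w * u), f i := by
  rw [sum2, sumTo_eq]
  simp_rw [sumTo_eq]
  induction u with
  | zero => simp
  | succ u ih => rw [sum_range_succ, ih, Nat.mul_succ, sum_range_add]

/-- all numbers below `n` satisfy `f` -/
def allTo (f : ℕ → Bool) : ℕ → Bool
  | 0 => true
  | n + 1 => allTo f n && f n

lemma allTo_iff (f : ℕ → Bool) (n : ℕ) : allTo f n = true ↔ ∀ i < n, f i = true := by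
  induction n with
  | zero => simp [allTo]
  | succ n ih =>
    rw [allTo, Bool.and_eq_true, ih]
    constructor
    · rintro ⟨h1, h2⟩ i hi
      rcases Nat.lt_succ_iff_lt_or_eq.1 hi with h | rfl
      · exact h1 i h
      · exact h2
    · intro h
      exact ⟨fun i hi => h i (by omega), h n (by omega)⟩

/-- two-level test -/
def all2 (f : ℕ → Bool) (u w : ℕ) : Bool := allTo (fun i => allTo (fun j => f (w * i + j)) w) u

lemma all2_iff (f : ℕ → Bool) (u w : ℕ) : all2 f u w = true ↔ ∀ i < w * u, f i = true := by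
  rw [all2, allTo_iff]
  simp_rw [allTo_iff]
  constructor
  · intro h i hi
    rcases Nat.eq_zero_or_pos w with rfl | hw
    · simp at hi
    have h1 := h (i / w) (Nat.div_lt_of_lt_mul hi) (i % w) (Nat.mod_lt _ hw)
    rwa [Nat.div_add_mod] at h1
  · intro h i hi j hj
    apply h
    calc w * i + j < w * i + w := by omega
      _ = w * (i + 1) := by ring
      _ ≤ w * u := Nat.mul_le_mul_left _ hi

/-- test of one cell against the direction `d`; `pos x y` is the position plus one, or zero -/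
def test (pos : ℕ → ℕ → ℕ) (a x y e d : ℕ) : Bool :=
  if e = 0 then !(decide (a + 1 < pos x (y ^^^ d)) && decide (a + 1 < pos (x ^^^ d) y))
  else if e = 1 then
    !(decide (a + 1 < pos x (y ^^^ d)) && decide (a + 1 < pos (x ^^^ d) (y ^^^ d)))
  else !(decide (a + 1 < pos (x ^^^ d) y) && decide (a + 1 < pos (x ^^^ d) (y ^^^ d)))

/-- test of a cell -/
def cell (k : ℕ) (pos : ℕ → ℕ → ℕ) (xc yc ce : ℕ → ℕ) (a : ℕ) : Bool :=
  decide (xc a < 2 ^ k) && decide (yc a < 2 ^ k) && decide (ce a < 3) &&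
    decide (pos (xc a) (yc a) = a + 1) &&
    allTo (fun d => d == 0 || test pos a (xc a) (yc a) (ce a) d) (2 ^ k)

lemma xor_swap {x y z w : ℕ} (h : x ^^^ y = z ^^^ w) : z = x ^^^ (y ^^^ w) := by
  have h1 : (x ^^^ y) ^^^ w = (z ^^^ w) ^^^ w := by rw [h]
  rw [Nat.xor_assoc, Nat.xor_assoc, Nat.xor_self, Nat.xor_zero] at h1
  exact h1.symm

theorem cert_of_table {k m : ℕ} (pos : ℕ → ℕ → ℕ) (xc yc ce : ℕ → ℕ)
    (h : ∀ a < m, cell k pos xc yc ce a = true) :
    Cert (fun s : Fin m => bits k (xc s)) (fun s => bits k (yc s))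
      (fun s => bits k (xc s ^^^ yc s))
      (fun s => if ce s = 0 then 0 else if ce s = 1 then 1 else 2) := by
  have H : ∀ a < m, xc a < 2 ^ k ∧ yc a < 2 ^ k ∧ ce a < 3 ∧ pos (xc a) (yc a) = a + 1 ∧
      ∀ d < 2 ^ k, d ≠ 0 → test pos a (xc a) (yc a) (ce a) d = true := by
    intro a ha
    have h1 := h a ha
    simp only [cell, Bool.and_eq_true, decide_eq_true_eq, allTo_iff, Bool.or_eq_true,
      beq_iff_eq] at h1
    obtain ⟨⟨⟨⟨h1, h2⟩, h3⟩, h4⟩, h5⟩ := h1
    exact ⟨h1, h2, h3, h4, fun d hd hd0 => (h5 d hd).resolve_left hd0⟩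
  have hxd : ∀ {a b : ℕ}, a < 2 ^ k → b < 2 ^ k → a ^^^ b < 2 ^ k :=
    fun ha hb => Nat.xor_lt_two_pow ha hb
  refine cert_of_codes xc yc ce (fun s hs => (H s hs).1) (fun s hs => (H s hs).2.1) ?_ ?_ ?_ ?_
    (fun s hs => (H s hs).2.2.1)
  · intro s hs t ht hx hy
    have h1 := (H s hs).2.2.2.1
    have h2 := (H t ht).2.2.2.1
    rw [hx, hy] at h1
    omega
  · intro a ha h0 b hb hab hX c hc hac hY hz
    obtain ⟨hx, hy, _, _, ht⟩ := H a ha
    set d := yc a ^^^ yc b with hd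
    have hb1 : yc b = yc a ^^^ d := by rw [hd, ← Nat.xor_assoc, Nat.xor_self, Nat.zero_xor]
    have hc1 : xc c = xc a ^^^ d := by
      have e : xc c = xc b ^^^ (yc b ^^^ yc c) := xor_swap hz
      rw [e, ← hX, ← hY, hd, Nat.xor_comm (yc b)]
    have hd0 : d ≠ 0 := by
      intro h0'
      rw [h0', Nat.xor_zero] at hb1
      have h1 := (H a ha).2.2.2.1
      have h2 := (H b hb).2.2.2.1
      rw [← hX, hb1] at h2
      omega
    have := ht d (hxd hy ((H b hb).2.1)) hd0
    rw [test, if_pos h0] at this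
    have p1 := (H b hb).2.2.2.1
    have p2 := (H c hc).2.2.2.1
    rw [← hX, hb1] at p1
    rw [hc1, ← hY] at p2
    rw [p1, p2] at this
    simp [hab, hac] at this
  · intro b hb h1 a ha hba hX c hc hbc hY hz
    obtain ⟨hx, hy, _, _, ht⟩ := H b hb
    set d := yc b ^^^ yc a with hd
    have ha1 : yc a = yc b ^^^ d := by rw [hd, ← Nat.xor_assoc, Nat.xor_self, Nat.zero_xor]
    have hc1 : xc c = xc b ^^^ d := by
      have e : xc c = xc b ^^^ (yc b ^^^ yc c) := xor_swap hz
      rw [e, ← hY, hd]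
    have hd0 : d ≠ 0 := by
      intro h0'
      rw [h0', Nat.xor_zero] at ha1
      have h1 := (H a ha).2.2.2.1
      have h2 := (H b hb).2.2.2.1
      rw [hX, ha1] at h1
      omega
    have := ht d (hxd hy ((H a ha).2.1)) hd0
    rw [test, if_neg (by omega), if_pos h1] at this
    have p1 := (H a ha).2.2.2.1
    have p2 := (H c hc).2.2.2.1
    rw [hX, ha1] at p1
    rw [hc1, ← hY, ha1] at p2
    rw [p1, p2] at this
    simp [hba, hbc] at this
  · intro c hc h2 a ha hca hY b hb hcb hX hz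
    obtain ⟨hx, hy, _, _, ht⟩ := H c hc
    set d := xc c ^^^ xc a with hd
    have ha1 : xc a = xc c ^^^ d := by rw [hd, ← Nat.xor_assoc, Nat.xor_self, Nat.zero_xor]
    have hb1 : yc b = yc c ^^^ d := by
      have hz' : yc c ^^^ xc c = yc b ^^^ xc b := by
        rw [Nat.xor_comm (yc c), Nat.xor_comm (yc b)]; exact hz.symm
      have e : yc b = yc c ^^^ (xc c ^^^ xc b) := xor_swap hz'
      rw [e, ← hX, hd]
    have hd0 : d ≠ 0 := by
      intro h0'
      rw [h0', Nat.xor_zero] at ha1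
      have h1 := (H a ha).2.2.2.1
      have h2 := (H c hc).2.2.2.1
      rw [ha1, hY] at h1
      omega
    have := ht d (hxd hx ((H a ha).1)) hd0
    rw [test, if_neg (by omega), if_neg (by omega)] at this
    have p1 := (H a ha).2.2.2.1
    have p2 := (H b hb).2.2.2.1
    rw [ha1, hY] at p1
    rw [← hX, ha1, hb1] at p2
    rw [p1, p2] at this
    simp [hca, hcb] at this

lemma sum_codes {k : ℕ} (hk : ∀ i < 2 ^ k, idx (bits k i) = i) (f : ℕ → ℕ) :
    ∑ x : Fin k → ZMod 2, f (idx x) = ∑ i ∈ range (2 ^ k), f i := by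
  symm
  apply sum_bij (fun i _ => bits k i)
  · intro i _; exact mem_univ _
  · intro i hi j hj h
    exact bits_inj (mem_range.1 hi) (mem_range.1 hj) h
  · intro v _
    have hinj : Set.InjOn (fun i => bits k i) (range (2 ^ k) : Finset ℕ) := by
      intro i hi j hj h
      exact bits_inj (mem_range.1 hi) (mem_range.1 hj) h
    have himg : (range (2 ^ k)).image (fun i => bits k i) = univ := by
      apply eq_univ_of_card
      rw [card_image_of_injOn hinj, card_range, Fintype.card_fun, ZMod.card, Fintype.card_fin]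
    have hv : v ∈ (range (2 ^ k)).image (fun i => bits k i) := by rw [himg]; exact mem_univ _
    obtain ⟨i, hi, rfl⟩ := mem_image.1 hv
    exact ⟨i, hi, rfl⟩
  · intro i hi
    rw [hk i (mem_range.1 hi)]

/-- The numerical theorem with the fast test. -/
theorem main_table {k D p q u w u' w' : ℕ} (pos : ℕ → ℕ → ℕ) (xc yc ce : ℕ → ℕ) (an bn cn : ℕ → ℕ)
    (hD : 0 < D) (hp : 0 < p) (hq : 0 < q)
    (hk : allTo (fun i => decide (idx (bits k i) = i)) (2 ^ k) = true)
    (hcell : all2 (cell k pos xc yc ce) u w = true)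
    (hw : w' * u' = 2 ^ k)
    (ha : sum2 (fun i => an i ^ p) u' w' ≤ D ^ p)
    (hb : sum2 (fun i => bn i ^ p) u' w' ≤ D ^ p)
    (hc : sum2 (fun i => cn i ^ p) u' w' ≤ D ^ p)
    (hC : D ^ (3 * q) < sum2 (fun s => (an (xc s) * bn (yc s) * cn (xc s ^^^ yc s)) ^ q) u w) :
    ∃ n0 : ℕ, ∀ n : ℕ, n0 ≤ n → ∃ S : Finset ((Fin n → ZMod 2) × (Fin n → ZMod 2)),
      CornerFree S ∧ 2 ^ (3 * q * n) ≤ S.card ^ p := by
  have hk' : ∀ i < 2 ^ k, idx (bits k i) = i := by
    intro i hi
    simpa using (allTo_iff _ _).1 hk i hi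
  have hcell' : ∀ a < w * u, cell k pos xc yc ce a = true := (all2_iff _ _ _).1 hcell
  have hcert := cert_of_table (m := w * u) pos xc yc ce hcell'
  rw [sum2_eq] at ha hb hc hC
  rw [hw] at ha hb hc
  have hD' : (0 : ℝ) < D := by exact_mod_cast hD
  have norm : ∀ f : ℕ → ℕ, ∑ i ∈ range (2 ^ k), f i ^ p ≤ D ^ p →
      ∑ x : Fin k → ZMod 2, ((f (idx x) : ℝ) / D) ^ p ≤ 1 := by
    intro f hf
    rw [← sum_codes hk' (fun i => f i ^ p)] at hf
    simp_rw [div_pow]
    rw [← sum_div, div_le_one (by positivity)]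
    exact_mod_cast hf
  refine main hcert
    (fun x => (an (idx x) : ℝ) / D) (fun x => (bn (idx x) : ℝ) / D) (fun x => (cn (idx x) : ℝ) / D)
    (fun x => by positivity) (fun x => by positivity) (fun x => by positivity) p q hp hq
    (norm an ha) (norm bn hb) (norm cn hc) ?_
  have e : ∀ s : Fin (w * u), ((an (idx (bits k (xc s))) : ℝ) / D *
      ((bn (idx (bits k (yc s))) : ℝ) / D)
      * ((cn (idx (bits k (xc s ^^^ yc s))) : ℝ) / D)) ^ q
      = ((an (xc s) * bn (yc s) * cn (xc s ^^^ yc s) : ℕ) : ℝ) ^ q / (D : ℝ) ^ (3 * q) := by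
    intro s
    have hs := hcell' s s.2
    simp only [cell, Bool.and_eq_true, decide_eq_true_eq] at hs
    obtain ⟨⟨⟨⟨h1, h2⟩, _⟩, _⟩, _⟩ := hs
    rw [hk' _ h1, hk' _ h2, hk' _ (Nat.xor_lt_two_pow h1 h2), pow_mul, ← div_pow]
    congr 1
    push_cast
    field_simp
  rw [sum_congr rfl (fun s _ => e s), ← sum_div, one_lt_div (by positivity)]
  rw [← Fin.sum_univ_eq_sum_range
    (fun s => (an (xc s) * bn (yc s) * cn (xc s ^^^ yc s)) ^ q) (w * u)] at hC
  exact_mod_cast hC

end Run7.h125.Sat.Table
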